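import Mathlib

/-!
Precoloured matchings need not extend to total colourings with `Δ + 3` colours.

For every `Δ ≥ 7` we give a graph `G` of maximum degree `Δ` together with a perfect matching `H`
of `G` and a total-`(Δ+3)`-colouring of `H` in `G` that does not extend to `G`.

Put `d = Δ - 1 ≥ 6`.  The core of `G` has the parts `X = {x_0, …, x_d}` and `Y = {y_1, …, y_d}`;
every `y_j` is adjacent to all vertices of `X` but one, `x_{m(j)}`, and `x_0` is adjacent to
`⌊d/2⌋ ≥ 3` other vertices of `X`.  To every core vertex one pendant vertex is attached, and `H`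
consists of the pendant edges.  The vertices of `X` and their pendant edges use the colours `0, 1`,
those of `Y` the colours `2, 3`.  So only `d` colours are left for the edges between `X` and `Y`,
each of them must match all of `Y` into `X`, and this blocks all these `d` colours on the edges
inside `X`, for which only the two colours `2, 3` remain.
-/

namespace Pool.Agent.Results.MP_0d3379_co.AllDegreesFromSeven

/-- `(cv, ce)` is a total colouring of the graph `G` with colours in `C`: adjacent vertices receive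
distinct colours, distinct edges sharing an endpoint receive distinct colours, and every edge
receives a colour different from the colours of its endpoints. -/
structure IsTotalColoring {V C : Type*} (G : SimpleGraph V) (cv : V → C) (ce : Sym2 V → C) :
    Prop where
  vertex : ∀ u v, G.Adj u v → cv u ≠ cv v
  edge : ∀ e ∈ G.edgeSet, ∀ f ∈ G.edgeSet, e ≠ f → (∃ v, v ∈ e ∧ v ∈ f) → ce e ≠ ce f
  incidence : ∀ e ∈ G.edgeSet, ∀ v ∈ e, ce e ≠ cv v

/-- `(φv, φe)` is a total colouring of the subgraph `H` in `G`: a total colouring of `H` (only the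
values on vertices and edges of `H` matter) such that moreover any two vertices of `H` that are
adjacent in `G` receive distinct colours. -/
structure IsTotalColoringIn {V C : Type*} (G : SimpleGraph V) (H : G.Subgraph) (φv : V → C)
    (φe : Sym2 V → C) : Prop where
  vertex : ∀ u ∈ H.verts, ∀ v ∈ H.verts, G.Adj u v → φv u ≠ φv v
  edge : ∀ e ∈ H.edgeSet, ∀ f ∈ H.edgeSet, e ≠ f → (∃ v, v ∈ e ∧ v ∈ f) → φe e ≠ φe f
  incidence : ∀ e ∈ H.edgeSet, ∀ v ∈ e, φe e ≠ φv v

/-- The precolouring `(φv, φe)` of `H` extends to a total colouring of `G` with the same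
colours. -/
def Extends {V C : Type*} (G : SimpleGraph V) (H : G.Subgraph) (φv : V → C)
    (φe : Sym2 V → C) : Prop :=
  ∃ (cv : V → C) (ce : Sym2 V → C), IsTotalColoring G cv ce ∧
    (∀ v ∈ H.verts, cv v = φv v) ∧ ∀ e ∈ H.edgeSet, ce e = φe e

/-! ### The construction -/

/-- The index of the only vertex of `X` to which `y_j` is not adjacent. -/
def miss (d j : ℕ) : ℕ := if j < d - d / 2 then 0 else j - (d - d / 2) + 1

/-- Adjacency in the core: `inl i` is `x_i`, `inr j` is `y_j`. -/
def coreAdj (d : ℕ) : Fin (d + 1) ⊕ Fin d → Fin (d + 1) ⊕ Fin d → Prop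
  | .inl i, .inl j => (i.1 = 0 ∧ 1 ≤ j.1 ∧ j.1 ≤ d / 2) ∨ (j.1 = 0 ∧ 1 ≤ i.1 ∧ i.1 ≤ d / 2)
  | .inl i, .inr j => miss d j.1 ≠ i.1
  | .inr j, .inl i => miss d j.1 ≠ i.1
  | .inr _, .inr _ => False

/-- The vertex set: core vertices `(v, false)` and their pendant neighbours `(v, true)`. -/
abbrev W (d : ℕ) : Type := (Fin (d + 1) ⊕ Fin d) × Bool

/-- The graph: the core with a pendant vertex attached to every core vertex. -/
def gr (d : ℕ) : SimpleGraph (W d) where
  Adj p q := (p.2 = false ∧ q.2 = false ∧ coreAdj d p.1 q.1) ∨ (p.1 = q.1 ∧ p.2 ≠ q.2)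
  symm := ⟨by
    rintro ⟨p, a⟩ ⟨q, b⟩ h
    rcases h with ⟨ha, hb, h⟩ | ⟨h1, h2⟩
    · refine Or.inl ⟨hb, ha, ?_⟩
      rcases p with i | i <;> rcases q with j | j <;> simp only [coreAdj] at h ⊢ <;> tauto
    · exact Or.inr ⟨h1.symm, h2.symm⟩⟩
  loopless := ⟨by
    rintro ⟨p, a⟩ h
    rcases h with ⟨_, _, h⟩ | ⟨_, h2⟩
    · rcases p with i | i <;> simp only [coreAdj] at h
      omega
    · exact h2 rfl⟩

/-- The perfect matching formed by the pendant edges. -/
def mat (d : ℕ) : (gr d).Subgraph where
  verts := Set.univ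
  Adj p q := p.1 = q.1 ∧ p.2 ≠ q.2
  adj_sub := fun h => Or.inr h
  edge_vert := fun _ => Set.mem_univ _
  symm := ⟨fun _ _ h => ⟨h.1.symm, h.2.symm⟩⟩

/-- The precolouring of the vertices. -/
def vcol (d : ℕ) : W d → Fin (d + 4)
  | (.inl i, false) => if i.1 = 0 then ⟨0, by omega⟩ else ⟨1, by omega⟩
  | (.inr _, false) => ⟨2, by omega⟩
  | (.inl _, true) => ⟨2, by omega⟩
  | (.inr _, true) => ⟨0, by omega⟩

/-- The colour of the pendant edge at a core vertex. -/
def pcol (d : ℕ) : Fin (d + 1) ⊕ Fin d → Fin (d + 4)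
  | .inl i => if i.1 = 0 then ⟨1, by omega⟩ else ⟨0, by omega⟩
  | .inr _ => ⟨3, by omega⟩

open Classical in
/-- The precolouring of the edges (only the values on pendant edges matter). -/
noncomputable def ecol (d : ℕ) : Sym2 (W d) → Fin (d + 4) :=
  Sym2.lift ⟨fun p q => if p.1 = q.1 then pcol d p.1 else ⟨0, by omega⟩, by
    intro p q
    by_cases h : p.1 = q.1
    · simp [h]
    · have h' : ¬ q.1 = p.1 := fun h2 => h h2.symm
      simp [h, h']⟩

lemma ecol_pendant (d : ℕ) (v : Fin (d + 1) ⊕ Fin d) (a b : Bool) :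
    ecol d s((v, a), (v, b)) = pcol d v := by
  simp [ecol]

lemma mat_isMatching (d : ℕ) : (mat d).IsMatching := by
  rintro ⟨v, a⟩ _
  refine ⟨(v, !a), ⟨rfl, by simp⟩, ?_⟩
  rintro ⟨w, b⟩ ⟨h1, h2⟩
  simp only at h1 h2
  subst h1
  have : b = !a := by
    cases a <;> cases b <;> simp_all
  rw [this]

lemma mat_edge {d : ℕ} {e : Sym2 (W d)} (he : e ∈ (mat d).edgeSet) :
    ∃ v : Fin (d + 1) ⊕ Fin d, e = s((v, false), (v, true)) := by
  induction e using Sym2.ind with
  | _ p q =>
    rcases p with ⟨v, a⟩
    rcases q with ⟨w, b⟩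
    obtain ⟨h1, h2⟩ : v = w ∧ a ≠ b := he
    subst h1
    refine ⟨v, ?_⟩
    cases a <;> cases b <;> simp_all [Sym2.eq_swap]

lemma precoloring (d : ℕ) : IsTotalColoringIn (gr d) (mat d) (vcol d) (ecol d) where
  vertex := by
    rintro ⟨u, a⟩ - ⟨v, b⟩ - h
    rcases h with ⟨ha, hb, h⟩ | ⟨h1, h2⟩
    · simp only at ha hb h
      subst ha hb
      rcases u with i | i <;> rcases v with j | j <;> simp only [coreAdj] at h
      · rcases h with h | h
        · have : j.1 ≠ 0 := by omega
          simp [vcol, h.1, this]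
        · have : i.1 ≠ 0 := by omega
          simp [vcol, h.1, this]
      · simp only [vcol]
        split_ifs <;> simp
      · simp only [vcol]
        split_ifs <;> simp
    · simp only at h1 h2
      subst h1
      rcases u with i | i <;> cases a <;> cases b <;> simp_all [vcol] <;> split_ifs <;> simp
  edge := by
    intro e he f hf hef hv
    obtain ⟨v, rfl⟩ := mat_edge he
    obtain ⟨w, rfl⟩ := mat_edge hf
    obtain ⟨x, hx1, hx2⟩ := hv
    exfalso
    simp only [Sym2.mem_iff] at hx1 hx2
    apply hef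
    have : v = w := by
      rcases hx1 with rfl | rfl <;> rcases hx2 with h | h <;> simp_all
    rw [this]
  incidence := by
    intro e he x hx
    obtain ⟨v, rfl⟩ := mat_edge he
    rw [ecol_pendant]
    simp only [Sym2.mem_iff] at hx
    rcases hx with rfl | rfl <;> rcases v with i | i <;> simp only [pcol, vcol] <;>
      (try split_ifs) <;> simp

/-! ### The degrees -/

lemma miss_le {d j : ℕ} (hj : j < d) : miss d j ≤ d := by
  unfold miss; split <;> omega

/-- Position of a neighbour in the neighbourhood of a vertex. -/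
def pos (d : ℕ) : W d → W d → ℕ
  | (_, true), _ => 0
  | (_, false), (_, true) => d
  | (.inl _, false), (.inr j, false) => j.1
  | (.inl i, false), (.inl k, false) => if i.1 = 0 then k.1 - 1 else d - d / 2 + i.1 - 1
  | (.inr j, false), (.inl k, false) => if k.1 < miss d j.1 then k.1 else k.1 - 1
  | (.inr _, false), (.inr _, false) => 0

lemma pos_lt (d : ℕ) (i u : Fin (d + 1) ⊕ Fin d) (h : coreAdj d i u) :
    pos d (i, false) (u, false) < d := by
  rcases i with i | i <;> rcases u with j | j <;> simp only [coreAdj] at h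
  · simp only [pos]
    split_ifs <;> omega
  · simp only [pos]
    exact j.2
  · have := miss_le i.2
    have := j.2
    simp only [pos]
    split_ifs <;> omega

open Classical in
lemma degree_le (d : ℕ) (hd : 6 ≤ d) (v : W d) : (gr d).degree v ≤ d + 1 := by
  rw [← SimpleGraph.card_neighborFinset_eq_degree]
  refine le_trans (Finset.card_le_card_of_injOn (pos d v) (t := Finset.range (d + 1)) ?_ ?_)
    (Finset.card_range (d + 1)).le
  · rintro ⟨w, b⟩ hw
    rw [Finset.mem_coe, SimpleGraph.mem_neighborFinset] at hw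
    rw [Finset.mem_coe, Finset.mem_range]
    rcases v with ⟨v, a⟩
    cases a
    · cases b
      · obtain ⟨-, -, h⟩ | ⟨h1, h2⟩ := hw
        · exact (pos_lt d _ _ h).trans (by omega)
        · exact absurd rfl h2
      · simp [pos]
    · simp [pos]
  · rintro ⟨w, b⟩ hw ⟨w', b'⟩ hw' heq
    rw [Finset.mem_coe, SimpleGraph.mem_neighborFinset] at hw hw'
    rcases v with ⟨v, a⟩
    cases a
    · cases b <;> cases b'
      · obtain ⟨-, -, h⟩ | ⟨h1, h2⟩ := hw
        · obtain ⟨-, -, h'⟩ | ⟨h1, h2⟩ := hw'
          · rcases v with i | i <;> rcases w with j | j <;> rcases w' with k | k <;>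
              simp only [coreAdj] at h h' <;> simp only [pos] at heq
            · have : j = k := by
                apply Fin.ext
                split_ifs at heq with hi <;> omega
              rw [this]
            · exfalso
              have := k.2
              have := i.2
              unfold miss at h'
              split_ifs at h' heq <;> omega
            · exfalso
              have := j.2
              have := i.2
              unfold miss at h
              split_ifs at h heq <;> omega
            · rw [Fin.ext heq]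
            · have : j = k := by
                apply Fin.ext
                split_ifs at heq with h3 h4 h4 <;> omega
              rw [this]
          · exact absurd rfl h2
        · exact absurd rfl h2
      · exfalso
        obtain ⟨-, -, h⟩ | ⟨h1, h2⟩ := hw
        · have h3 := pos_lt d _ _ h
          simp only at h3
          rw [heq] at h3
          simp [pos] at h3
        · exact absurd rfl h2
      · exfalso
        obtain ⟨-, -, h⟩ | ⟨h1, h2⟩ := hw'
        · have h3 := pos_lt d _ _ h
          simp only at h3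
          rw [← heq] at h3
          simp [pos] at h3
        · exact absurd rfl h2
      · obtain ⟨-, h, -⟩ | ⟨h1, h2⟩ := hw
        · exact absurd h (by simp)
        · obtain ⟨-, h, -⟩ | ⟨h1', h2'⟩ := hw'
          · exact absurd h (by simp)
          · simp only at h1 h1'
            rw [← h1, ← h1']
    · obtain ⟨h, -, -⟩ | ⟨h1, h2⟩ := hw
      · exact absurd h (by simp)
      · obtain ⟨h, -, -⟩ | ⟨h1', h2'⟩ := hw'
        · exact absurd h (by simp)
        · simp only at h1 h1' h2 h2'
          rw [← h1, ← h1']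
          congr
          cases b <;> cases b' <;> simp_all

open Classical in
lemma le_degree (d : ℕ) (hd : 6 ≤ d) :
    d + 1 ≤ (gr d).degree ((.inr ⟨0, by omega⟩, false) : W d) := by
  rw [← SimpleGraph.card_neighborFinset_eq_degree]
  calc d + 1 = (Finset.univ : Finset (Fin (d + 1))).card := by simp
    _ ≤ _ := by
      apply Finset.card_le_card_of_injOn
        (fun i : Fin (d + 1) => if i.1 = 0 then ((.inr ⟨0, by omega⟩, true) : W d)
          else (.inl i, false))
      · intro i _
        rw [Finset.mem_coe, SimpleGraph.mem_neighborFinset]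
        simp only
        split_ifs with h
        · exact Or.inr ⟨rfl, by simp⟩
        · refine Or.inl ⟨rfl, rfl, ?_⟩
          simp only [coreAdj, miss]
          split_ifs <;> omega
      · intro i _ j _ h
        simp only at h
        split_ifs at h with h1 h2 h2
        · exact Fin.ext (by omega)
        · simp at h
        · simp at h
        · simpa using h

open Classical in
lemma maxDegree_gr (d : ℕ) (hd : 6 ≤ d) : (gr d).maxDegree = d + 1 :=
  le_antisymm (SimpleGraph.maxDegree_le_of_forall_degree_le _ _ (degree_le d hd))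
    ((le_degree d hd).trans (SimpleGraph.degree_le_maxDegree _ _))

/-! ### The precolouring does not extend -/

lemma not_extends (d : ℕ) (hd : 6 ≤ d) : ¬ Extends (gr d) (mat d) (vcol d) (ecol d) := by
  rintro ⟨cv, ce, hc, hv, he⟩
  -- the pendant edges
  have hpen : ∀ v : Fin (d + 1) ⊕ Fin d, ce s((v, false), (v, true)) = pcol d v := by
    intro v
    rw [he _ (show (mat d).Adj (v, false) (v, true) from ⟨rfl, by simp⟩), ecol_pendant]
  have hvv : ∀ v : W d, cv v = vcol d v := fun v => hv v (Set.mem_univ _)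
  -- a core edge avoids the colours at its end vertices
  have havoid : ∀ u v : Fin (d + 1) ⊕ Fin d, coreAdj d u v →
      ce s((u, false), (v, false)) ≠ vcol d (u, false) ∧
      ce s((u, false), (v, false)) ≠ pcol d u ∧
      ce s((u, false), (v, false)) ≠ vcol d (v, false) ∧
      ce s((u, false), (v, false)) ≠ pcol d v := by
    intro u v h
    have hadj : (gr d).Adj (u, false) (v, false) := Or.inl ⟨rfl, rfl, h⟩
    refine ⟨?_, ?_, ?_, ?_⟩
    · rw [← hvv]
      exact hc.incidence _ hadj _ (by simp)
    · rw [← hpen]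
      refine hc.edge _ hadj _ (show (gr d).Adj (u, false) (u, true) from Or.inr ⟨rfl, by simp⟩)
        ?_ ⟨(u, false), by simp, by simp⟩
      intro h2
      rw [Sym2.eq_iff] at h2
      rcases h2 with ⟨-, h2⟩ | ⟨h2, -⟩ <;> simp at h2
    · rw [← hvv]
      exact hc.incidence _ hadj _ (by simp)
    · rw [← hpen]
      refine hc.edge _ hadj _ (show (gr d).Adj (v, false) (v, true) from Or.inr ⟨rfl, by simp⟩)
        ?_ ⟨(v, false), by simp, by simp⟩
      intro h2
      rw [Sym2.eq_iff] at h2
      rcases h2 with ⟨-, h2⟩ | ⟨h2, -⟩ <;> simp at h2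
  -- colours of the edges between `X` and `Y`
  let x : Fin (d + 1) → W d := fun i => (.inl i, false)
  let y : Fin d → W d := fun j => (.inr j, false)
  have hcross : ∀ i j, miss d j.1 ≠ i.1 → 4 ≤ (ce s(y j, x i)).1 := by
    intro i j h
    obtain ⟨h1, h2, h3, h4⟩ := havoid (.inr j) (.inl i) h
    have h5 : (ce s(y j, x i)).1 ≠ 2 := fun h5 => h1 (Fin.ext h5)
    have h6 : (ce s(y j, x i)).1 ≠ 3 := fun h6 => h2 (Fin.ext h6)
    have h78 : (ce s(y j, x i)).1 ≠ 0 ∧ (ce s(y j, x i)).1 ≠ 1 := by
      by_cases hi : i.1 = 0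
      · simp only [vcol, pcol, hi, if_true] at h3 h4
        exact ⟨fun h => h3 (Fin.ext h), fun h => h4 (Fin.ext h)⟩
      · simp only [vcol, pcol, hi, if_false] at h3 h4
        exact ⟨fun h => h4 (Fin.ext h), fun h => h3 (Fin.ext h)⟩
    omega
  -- colours of the edges inside `X`
  have hadjx : ∀ k : Fin (d + 1), 1 ≤ k.1 → k.1 ≤ d / 2 →
      coreAdj d (.inl ⟨0, by omega⟩) (.inl k) := fun k h1 h2 => Or.inl ⟨rfl, h1, h2⟩
  have hstar2 : ∀ k : Fin (d + 1), 1 ≤ k.1 → k.1 ≤ d / 2 →
      2 ≤ (ce s(x ⟨0, by omega⟩, x k)).1 := by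
    intro k hk1 hk2
    obtain ⟨h1, h2, -, -⟩ := havoid _ _ (hadjx k hk1 hk2)
    simp only [vcol, pcol, if_true] at h1 h2
    have h3 : (ce s(x ⟨0, by omega⟩, x k)).1 ≠ 0 := fun h => h1 (Fin.ext h)
    have h4 : (ce s(x ⟨0, by omega⟩, x k)).1 ≠ 1 := fun h => h2 (Fin.ext h)
    omega
  -- at every `y j` each colour `≥ 4` occurs on an edge to `X`
  have hsurj : ∀ (j : Fin d) (α : Fin (d + 4)), 4 ≤ α.1 →
      ∃ i : Fin (d + 1), miss d j.1 ≠ i.1 ∧ ce s(y j, x i) = α := by
    intro j α hα
    have hm : miss d j.1 < d + 1 := by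
      have := miss_le j.2
      omega
    have hmaps : Set.MapsTo (fun i => ce s(y j, x i))
        ((Finset.univ.erase (⟨miss d j.1, hm⟩ : Fin (d + 1)) : Finset _) : Set (Fin (d + 1)))
        ((Finset.Ici (⟨4, by omega⟩ : Fin (d + 4)) : Finset _) : Set (Fin (d + 4))) := by
      intro i hi
      simp only [Finset.coe_erase, Finset.coe_univ, Set.mem_sdiff, Set.mem_univ, true_and,
        Set.mem_singleton_iff] at hi
      simp only [Finset.coe_Ici, Set.mem_Ici, Fin.le_def]
      exact hcross i j (fun h => hi (Fin.ext h.symm))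
    have hinj : Set.InjOn (fun i => ce s(y j, x i))
        ((Finset.univ.erase (⟨miss d j.1, hm⟩ : Fin (d + 1)) : Finset _) :
          Set (Fin (d + 1))) := by
      intro i hi i' hi' h
      simp only [Finset.coe_erase, Finset.coe_univ, Set.mem_sdiff, Set.mem_univ, true_and,
        Set.mem_singleton_iff] at hi hi'
      by_contra hne
      refine hc.edge s(y j, x i) ?_ s(y j, x i') ?_ ?_ ⟨y j, by simp, by simp⟩ h
      · exact Or.inl ⟨rfl, rfl, fun h => hi (Fin.ext h.symm)⟩
      · exact Or.inl ⟨rfl, rfl, fun h => hi' (Fin.ext h.symm)⟩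
      · intro h2
        rw [Sym2.eq_iff] at h2
        rcases h2 with ⟨-, h2⟩ | ⟨h2, -⟩
        · simp only [x, Prod.mk.injEq, Sum.inl.injEq, and_true] at h2
          exact hne h2
        · simp [x, y] at h2
    have hcard : (Finset.Ici (⟨4, by omega⟩ : Fin (d + 4))).card ≤
        (Finset.univ.erase (⟨miss d j.1, hm⟩ : Fin (d + 1))).card := by
      rw [Fin.card_Ici, Finset.card_erase_of_mem (Finset.mem_univ _), Finset.card_univ,
        Fintype.card_fin]
      simp
    obtain ⟨i, hi, hi2⟩ := Finset.surjOn_of_injOn_of_card_le _ hmaps hinj hcard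
      (show α ∈ _ by
        simp only [Finset.coe_Ici, Set.mem_Ici, Fin.le_def]
        exact hα)
    simp only [Finset.coe_erase, Finset.coe_univ, Set.mem_sdiff, Set.mem_univ, true_and,
      Set.mem_singleton_iff] at hi
    exact ⟨i, fun h => hi (Fin.ext h.symm), hi2⟩
  -- so no edge inside `X` has a colour `≥ 4`
  have hstar4 : ∀ k : Fin (d + 1), 1 ≤ k.1 → k.1 ≤ d / 2 →
      (ce s(x ⟨0, by omega⟩, x k)).1 < 4 := by
    intro k hk1 hk2
    by_contra hge
    push Not at hge
    choose N hN1 hN2 using fun j => hsurj j _ hge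
    have hadj : (gr d).Adj (x ⟨0, by omega⟩) (x k) := Or.inl ⟨rfl, rfl, hadjx k hk1 hk2⟩
    have hNadj : ∀ j, (gr d).Adj (y j) (x (N j)) := fun j => Or.inl ⟨rfl, rfl, hN1 j⟩
    have hinj : Set.InjOn N ((Finset.univ : Finset (Fin d)) : Set (Fin d)) := by
      intro j _ j' _ h
      by_contra hne
      refine hc.edge _ (hNadj j) _ (hNadj j') ?_ ⟨x (N j), by simp, by simp [h]⟩
        ((hN2 j).trans (hN2 j').symm)
      intro h2
      rw [Sym2.eq_iff] at h2
      rcases h2 with ⟨h2, -⟩ | ⟨h2, -⟩
      · simp only [y, Prod.mk.injEq, Sum.inr.injEq, and_true] at h2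
        exact hne h2
      · simp [x, y] at h2
    have hN0 : ∀ j, ∀ l : Fin (d + 1), (l = ⟨0, by omega⟩ ∨ l = k) → N j ≠ l := by
      intro j l hl hNl
      refine hc.edge _ (hNadj j) _ hadj ?_ ⟨x (N j), by simp, ?_⟩ (hN2 j)
      · intro h2
        rw [Sym2.eq_iff] at h2
        rcases h2 with ⟨h2, -⟩ | ⟨h2, -⟩ <;> simp [x, y] at h2
      · rw [hNl]
        rcases hl with rfl | rfl <;> simp
    have hcard := Finset.card_le_card_of_injOn (s := (Finset.univ : Finset (Fin d)))
      (t := (Finset.univ.erase k).erase (⟨0, by omega⟩ : Fin (d + 1))) N ?_ hinj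
    · rw [Finset.card_erase_of_mem, Finset.card_erase_of_mem (Finset.mem_univ _),
        Finset.card_univ, Finset.card_univ, Fintype.card_fin, Fintype.card_fin] at hcard
      · omega
      · simp only [Finset.mem_erase, Finset.mem_univ, and_true, ne_eq]
        intro h
        rw [← h] at hk1
        simp at hk1
    · intro j _
      simp only [Finset.coe_erase, Finset.coe_univ, Set.mem_sdiff, Set.mem_univ, true_and,
        Set.mem_singleton_iff]
      exact ⟨hN0 j k (Or.inr rfl), hN0 j _ (Or.inl rfl)⟩
  -- three edges at `x 0` with only two colours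
  have hdist : ∀ k k' : Fin (d + 1), 1 ≤ k.1 → k.1 ≤ d / 2 → 1 ≤ k'.1 → k'.1 ≤ d / 2 →
      k ≠ k' → (ce s(x ⟨0, by omega⟩, x k)).1 ≠ (ce s(x ⟨0, by omega⟩, x k')).1 := by
    intro k k' h1 h2 h3 h4 hne h
    refine hc.edge s(x ⟨0, by omega⟩, x k) (Or.inl ⟨rfl, rfl, hadjx k h1 h2⟩)
      s(x ⟨0, by omega⟩, x k') (Or.inl ⟨rfl, rfl, hadjx k' h3 h4⟩) ?_
      ⟨x ⟨0, by omega⟩, by simp, by simp⟩ (Fin.ext h)
    intro h2
    rw [Sym2.eq_iff] at h2
    rcases h2 with ⟨-, h2⟩ | ⟨h2, h5⟩
    · simp only [x, Prod.mk.injEq, Sum.inl.injEq, and_true] at h2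
      exact hne h2
    · simp only [x, Prod.mk.injEq, Sum.inl.injEq, and_true] at h2 h5
      exact hne (h5.trans h2)
  have a1 := hstar2 ⟨1, by omega⟩ (by simp) (by simp; omega)
  have a2 := hstar2 ⟨2, by omega⟩ (by simp) (by simp; omega)
  have a3 := hstar2 ⟨3, by omega⟩ (by simp) (by simp; omega)
  have b1 := hstar4 ⟨1, by omega⟩ (by simp) (by simp; omega)
  have b2 := hstar4 ⟨2, by omega⟩ (by simp) (by simp; omega)
  have b3 := hstar4 ⟨3, by omega⟩ (by simp) (by simp; omega)
  have c12 := hdist ⟨1, by omega⟩ ⟨2, by omega⟩ (by simp) (by simp; omega) (by simp)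
    (by simp; omega) (by simp)
  have c13 := hdist ⟨1, by omega⟩ ⟨3, by omega⟩ (by simp) (by simp; omega) (by simp)
    (by simp; omega) (by simp)
  have c23 := hdist ⟨2, by omega⟩ ⟨3, by omega⟩ (by simp) (by simp; omega) (by simp)
    (by simp; omega) (by simp)
  omega

open Classical in
/-- For every `Δ ≥ 7` there are a finite graph `G` of maximum degree `Δ`, a subgraph `H` of `G`
that is a matching, and a total-`(Δ+3)`-colouring of `H` in `G` that does not extend to `G`. -/
theorem result : ∀ Δ : ℕ, 7 ≤ Δ →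
    ∃ (V : Type) (_ : Fintype V) (G : SimpleGraph V) (H : G.Subgraph)
      (φv : V → Fin (Δ + 3)) (φe : Sym2 V → Fin (Δ + 3)),
      G.maxDegree = Δ ∧ H.IsMatching ∧ IsTotalColoringIn G H φv φe ∧ ¬ Extends G H φv φe := by
  intro Δ hΔ
  obtain ⟨d, rfl⟩ : ∃ d, Δ = d + 1 := ⟨Δ - 1, by omega⟩
  exact ⟨W d, inferInstance, gr d, mat d, vcol d, ecol d, maxDegree_gr d (by omega),
    mat_isMatching d, precoloring d, not_extends d (by omega)⟩

end Pool.Agent.Results.MP_0d3379_co.AllDegreesFromSeven
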